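import Mathlib
import Pool.Agent.Helper180.FreeMetric

set_option autoImplicit false

/-!
# Frobenius partitions of infinite groups

The group of the maps `x ↦ ± 3^k x + b` of `ℚ`, with `b` in `ℤ[1/3]` even for the sign `+` and odd
for the sign `-`, has the Frobenius partition into the translations and the nontrivial point
stabilisers. The stabiliser of `0` is torsion free, the one of `1/2` is not, and no stabiliser is
a complement of the group of the translations.

In the free group on three generators, every malnormal subgroup `M` different from `1` and from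
the whole group gives a Frobenius partition: the conjugates of `M` and the centralisers of the
elements which are not conjugate into `M`. It is applied to `M = ⟨a⟩` and `M = ⟨a, b⟩`.
-/

namespace Pool.Agent.Results.MP_c23b5e_al.NoneHolds

universe u

/-- A partition of a group: every non-identity element lies in exactly one member. -/
def IsPartition {G : Type u} [Group G] (P : Set (Subgroup G)) : Prop :=
  ∀ g : G, g ≠ 1 → ∃! H : Subgroup G, H ∈ P ∧ g ∈ H

/-- A subgroup `A` is malnormal if `g⁻¹ A g ∩ A = {1}` for all `g` outside `A`. -/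
def Malnormal {G : Type u} [Group G] (A : Subgroup G) : Prop :=
  ∀ g : G, g ∉ A → A.map (MulAut.conj g⁻¹).toMonoidHom ⊓ A = ⊥

/-- `{N} ∪ 𝒜` is a nontrivial Frobenius partition of the group. -/
structure IsFrobeniusPartition {G : Type u} [Group G] (N : Subgroup G) (𝒜 : Set (Subgroup G)) :
    Prop where
  partition : IsPartition (insert N 𝒜)
  normal : N.Normal
  malnormal : ∀ A ∈ 𝒜, Malnormal A
  conj : ∀ A ∈ 𝒜, ∀ g : G, A.map (MulAut.conj g⁻¹).toMonoidHom ∈ 𝒜
  nontrivial : ∃ H ∈ insert N 𝒜, ∃ K ∈ insert N 𝒜, H ≠ K ∧ H ≠ ⊥ ∧ K ≠ ⊥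

theorem malnormal_of {G : Type u} [Group G] {A : Subgroup G}
    (h : ∀ g : G, ∀ a ∈ A, g⁻¹ * a * g ∈ A → a ≠ 1 → g ∈ A) : Malnormal A := by
  intro g hg
  rw [eq_bot_iff]
  rintro x ⟨⟨a, ha, rfl⟩, hx⟩
  rw [Subgroup.mem_bot]
  simp only [MulEquiv.coe_toMonoidHom, MulAut.conj_apply, inv_inv, SetLike.mem_coe] at hx ⊢
  by_contra hne
  apply hg
  apply h g a ha hx
  rintro rfl
  apply hne
  group

theorem mem_conj {G : Type u} [Group G] {A : Subgroup G} {g x : G} :
    x ∈ A.map (MulAut.conj g⁻¹).toMonoidHom ↔ g * x * g⁻¹ ∈ A := by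
  constructor
  · rintro ⟨a, ha, rfl⟩
    simp only [MulEquiv.coe_toMonoidHom, MulAut.conj_apply, inv_inv, SetLike.mem_coe] at ha ⊢
    convert ha using 1
    group
  · intro h
    refine ⟨_, h, ?_⟩
    simp only [MulEquiv.coe_toMonoidHom, MulAut.conj_apply, inv_inv]
    group

/-! ### The affine group -/

/-- The ring `ℤ[1/3]`. -/
def Z3 : Subring ℚ where
  carrier := {c | ∃ n : ℤ, ∃ m : ℕ, c * 3 ^ m = n}
  mul_mem' := by
    rintro a b ⟨n, m, h⟩ ⟨n', m', h'⟩
    refine ⟨n * n', m + m', ?_⟩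
    push_cast
    rw [← h, ← h', pow_add]; ring
  one_mem' := ⟨1, 0, by norm_num⟩
  add_mem' := by
    rintro a b ⟨n, m, h⟩ ⟨n', m', h'⟩
    refine ⟨n * 3 ^ m' + n' * 3 ^ m, m + m', ?_⟩
    push_cast
    rw [← h, ← h', pow_add]; ring
  zero_mem' := ⟨0, 0, by norm_num⟩
  neg_mem' := by
    rintro a ⟨n, m, h⟩
    refine ⟨-n, m, ?_⟩
    push_cast
    rw [← h]; ring

theorem three_zpow_mem (k : ℤ) : (3 : ℚ) ^ k ∈ Z3 := by
  rcases k with n | n
  · refine ⟨3 ^ n, 0, ?_⟩
    push_cast; simp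
  · refine ⟨1, n + 1, ?_⟩
    rw [zpow_negSucc]
    push_cast
    field_simp

theorem half_pow_mem (n : ℕ) : ((3 : ℚ) ^ n - 1) / 2 ∈ Z3 := by
  obtain ⟨c, hc⟩ : ∃ c : ℤ, (3 : ℤ) ^ n - 1 = 2 * c := by
    have : (2 : ℤ) ∣ 3 ^ n - 1 := by
      have h := sub_dvd_pow_sub_pow (3 : ℤ) 1 n
      norm_num at h
      exact h
    obtain ⟨c, hc⟩ := this
    exact ⟨c, hc⟩
  refine ⟨c, 0, ?_⟩
  have : ((3 : ℚ) ^ n - 1) = 2 * c := by exact_mod_cast hc
  rw [this]; ring

theorem half_mem (k : ℤ) : ((3 : ℚ) ^ k - 1) / 2 ∈ Z3 := by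
  rcases k with n | n
  · have := half_pow_mem n
    simpa using this
  · have h1 := half_pow_mem (n + 1)
    have h2 := three_zpow_mem (Int.negSucc n)
    have h3 := Z3.neg_mem (Z3.mul_mem h1 h2)
    convert h3 using 1
    rw [zpow_negSucc]
    field_simp
    ring

theorem half_notMem : (1 / 2 : ℚ) ∉ Z3 := by
  rintro ⟨n, m, h⟩
  have h1 : (3 : ℚ) ^ m = 2 * n := by rw [← h]; ring
  have h2 : (3 : ℤ) ^ m = 2 * n := by exact_mod_cast h1
  have h3 : (3 : ℤ) ^ m % 2 = 1 := by
    rw [← Int.odd_iff]; exact Odd.pow (by decide)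
  omega

/-- The group of all the maps `x ↦ s 3^k x + b` with `s = ±1`, `k ∈ ℤ` and `b ∈ ℤ[1/3]` which is
even if `s = 1` and odd if `s = -1`. -/
def Gam : Subgroup (Equiv.Perm ℚ) where
  carrier := {f | ∃ k : ℤ, ∃ c ∈ Z3, (∀ x, f x = 3 ^ k * x + 2 * c) ∨
    (∀ x, f x = - 3 ^ k * x + (1 + 2 * c))}
  one_mem' := ⟨0, 0, Z3.zero_mem, Or.inl (by intro x; simp)⟩
  mul_mem' := by
    rintro f g ⟨k, c, hc, h⟩ ⟨l, d, hd, h'⟩
    have hk := three_zpow_mem k
    have hk' := half_mem k
    rcases h with h | h <;> rcases h' with h' | h'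
    · refine ⟨k + l, 3 ^ k * d + c, Z3.add_mem (Z3.mul_mem hk hd) hc, Or.inl ?_⟩
      intro x
      rw [Equiv.Perm.mul_apply, h, h', zpow_add₀ (by norm_num)]; ring
    · refine ⟨k + l, 3 ^ k * d + c + (3 ^ k - 1) / 2,
        Z3.add_mem (Z3.add_mem (Z3.mul_mem hk hd) hc) hk', Or.inr ?_⟩
      intro x
      rw [Equiv.Perm.mul_apply, h, h', zpow_add₀ (by norm_num)]; ring
    · refine ⟨k + l, - (3 ^ k * d) + c, Z3.add_mem (Z3.neg_mem (Z3.mul_mem hk hd)) hc,
        Or.inr ?_⟩
      intro x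
      rw [Equiv.Perm.mul_apply, h, h', zpow_add₀ (by norm_num)]; ring
    · refine ⟨k + l, - (3 ^ k * d) + c - (3 ^ k - 1) / 2,
        Z3.sub_mem (Z3.add_mem (Z3.neg_mem (Z3.mul_mem hk hd)) hc) hk', Or.inl ?_⟩
      intro x
      rw [Equiv.Perm.mul_apply, h, h', zpow_add₀ (by norm_num)]; ring
  inv_mem' := by
    rintro f ⟨k, c, hc, h⟩
    have hk := three_zpow_mem (-k)
    have hk' := half_mem (-k)
    have h3 : (3 : ℚ) ^ k * 3 ^ (-k) = 1 := by
      rw [← zpow_add₀ (by norm_num)]; simp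
    rcases h with h | h
    · refine ⟨-k, - (3 ^ (-k) * c), Z3.neg_mem (Z3.mul_mem hk hc), Or.inl ?_⟩
      intro x
      rw [Equiv.Perm.inv_eq_iff_eq, h]
      linear_combination (-x + 2 * c) * h3
    · refine ⟨-k, 3 ^ (-k) * c + (3 ^ (-k) - 1) / 2,
        Z3.add_mem (Z3.mul_mem hk hc) hk', Or.inr ?_⟩
      intro x
      rw [Equiv.Perm.inv_eq_iff_eq, h]
      linear_combination (- x + 1 + 2 * c) * h3

theorem gam_affine (g : Gam) : ∃ u b : ℚ, u ≠ 0 ∧ ∀ x, g.1 x = u * x + b := by
  obtain ⟨f, k, c, hc, h⟩ := g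
  have h3 : (3 : ℚ) ^ k ≠ 0 := zpow_ne_zero _ (by norm_num)
  rcases h with h | h
  · exact ⟨_, _, h3, h⟩
  · exact ⟨_, _, neg_ne_zero.mpr h3, h⟩

theorem Gam.eq_one {g : Gam} {x y : ℚ} (hxy : x ≠ y) (hx : g.1 x = x) (hy : g.1 y = y) :
    g = 1 := by
  obtain ⟨u, b, hu, h⟩ := gam_affine g
  rw [h] at hx hy
  have h1 : (u - 1) * (x - y) = 0 := by linear_combination hx - hy
  have h2 : u = 1 := by
    rcases mul_eq_zero.mp h1 with h1 | h1
    · linarith
    · exact absurd (by linarith) hxy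
  subst h2
  have h3 : b = 0 := by linarith
  subst h3
  apply Subtype.ext
  apply Equiv.ext
  intro z
  rw [h]; simp

/-- The translations in `Gam`. -/
def tr : Subgroup Gam where
  carrier := {g | ∃ b : ℚ, ∀ x, g.1 x = x + b}
  one_mem' := ⟨0, by intro x; simp⟩
  mul_mem' := by
    rintro f g ⟨b, h⟩ ⟨b', h'⟩
    refine ⟨b' + b, ?_⟩
    intro x
    rw [Subgroup.coe_mul, Equiv.Perm.mul_apply, h, h']; ring
  inv_mem' := by
    rintro f ⟨b, h⟩
    refine ⟨-b, ?_⟩
    intro x
    rw [Subgroup.coe_inv, Equiv.Perm.inv_eq_iff_eq, h]; ring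

/-- The stabiliser of the point `x` in `Gam`. -/
def st (x : ℚ) : Subgroup Gam where
  carrier := {g | g.1 x = x}
  one_mem' := rfl
  mul_mem' := by
    intro f g h h'
    show f.1 (g.1 x) = x
    rw [show g.1 x = x from h', show f.1 x = x from h]
  inv_mem' := by
    intro f h
    show f.1⁻¹ x = x
    rw [Equiv.Perm.inv_eq_iff_eq]
    exact (show f.1 x = x from h).symm

theorem mem_st {x : ℚ} {g : Gam} : g ∈ st x ↔ g.1 x = x := Iff.rfl

theorem st_inj {x y : ℚ} (hx : st x ≠ ⊥) (h : st x = st y) : x = y := by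
  by_contra hne
  apply hx
  rw [eq_bot_iff]
  intro g hg
  have hg' : g ∈ st y := h ▸ hg
  exact Gam.eq_one hne hg hg'

/-- The nontrivial point stabilisers. -/
def stabs : Set (Subgroup Gam) := {A | A ≠ ⊥ ∧ ∃ x : ℚ, A = st x}

/-- `x ↦ 3 x`. -/
def g3 : Gam := ⟨⟨fun x => 3 * x, fun x => x / 3, (by intro x; simp), (by intro x; simp; field_simp)⟩, 1, 0, Z3.zero_mem, Or.inl (by intro x; simp)⟩

/-- `x ↦ 1 - x`. -/
def gm : Gam := ⟨⟨fun x => 1 - x, fun x => 1 - x, (by intro x; simp), (by intro x; simp)⟩, 0, 0, Z3.zero_mem, Or.inr (by intro x; simp; ring)⟩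

/-- `x ↦ x + 2`. -/
def g2 : Gam := ⟨⟨fun x => x + 2, fun x => x - 2, (by intro x; simp), (by intro x; simp)⟩, 0, 1, Z3.one_mem, Or.inl (by intro x; simp)⟩

theorem g3_apply (x : ℚ) : g3.1 x = 3 * x := rfl
theorem gm_apply (x : ℚ) : gm.1 x = 1 - x := rfl
theorem g2_apply (x : ℚ) : g2.1 x = x + 2 := rfl

theorem g3_ne : g3 ≠ 1 := by
  intro h
  have := g3_apply 1
  rw [h] at this
  norm_num at this

theorem gm_ne : gm ≠ 1 := by
  intro h
  have := gm_apply 0
  rw [h] at this
  norm_num at this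

theorem g2_ne : g2 ≠ 1 := by
  intro h
  have := g2_apply 0
  rw [h] at this
  norm_num at this

theorem st_zero_ne : st 0 ≠ ⊥ := by
  intro h
  have : g3 ∈ st 0 := by rw [mem_st, g3_apply]; norm_num
  rw [h, Subgroup.mem_bot] at this
  exact g3_ne this

theorem st_half_ne : st (1 / 2) ≠ ⊥ := by
  intro h
  have : gm ∈ st (1 / 2) := by rw [mem_st, gm_apply]; norm_num
  rw [h, Subgroup.mem_bot] at this
  exact gm_ne this

theorem st_conj (x : ℚ) (g : Gam) :
    (st x).map (MulAut.conj g⁻¹).toMonoidHom = st (g.1.symm x) := by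
  ext f
  rw [mem_conj, mem_st, mem_st]
  show g.1 (f.1 (g.1⁻¹ x)) = x ↔ _
  rw [← Equiv.eq_symm_apply]
  rfl

theorem frob_Gam : IsFrobeniusPartition tr stabs where
  partition := by
    intro g hg
    obtain ⟨u, b, hu, h⟩ := gam_affine g
    by_cases hu1 : u = 1
    · subst hu1
      refine ⟨tr, ⟨Set.mem_insert _ _, b, fun x => by rw [h]; ring⟩, ?_⟩
      rintro H ⟨hH, hgH⟩
      rcases hH with rfl | ⟨_, x, rfl⟩
      · rfl
      · exfalso
        apply hg
        rw [mem_st, h] at hgH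
        have hb : b = 0 := by linarith
        subst hb
        apply Subtype.ext
        apply Equiv.ext
        intro z
        rw [h]; simp
    · have h1u : 1 - u ≠ 0 := fun h => hu1 (by linarith)
      have hfix : g ∈ st (b / (1 - u)) := by
        rw [mem_st, h]
        field_simp
        ring
      refine ⟨st (b / (1 - u)), ⟨Set.mem_insert_of_mem _ ⟨?_, _, rfl⟩, hfix⟩, ?_⟩
      · intro h'
        rw [h', Subgroup.mem_bot] at hfix
        exact hg hfix
      · rintro H ⟨hH, hgH⟩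
        rcases hH with rfl | ⟨_, x, rfl⟩
        · exfalso
          obtain ⟨b', hb'⟩ := hgH
          have e0 := hb' 0
          have e1 := hb' 1
          rw [h] at e0 e1
          apply hu1; linarith
        · rw [mem_st, h] at hgH
          congr 1
          rw [eq_div_iff h1u]
          linarith
  normal := by
    constructor
    rintro n ⟨b, hb⟩ g
    obtain ⟨u, c, hu, h⟩ := gam_affine g
    refine ⟨u * b, ?_⟩
    intro x
    show g.1 (n.1 (g.1⁻¹ x)) = _
    rw [hb, h]
    have : g.1 (g.1⁻¹ x) = x := by simp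
    rw [h] at this
    linear_combination this
  malnormal := by
    rintro _ ⟨_, x, rfl⟩
    apply malnormal_of
    intro g a ha hga hne
    rw [mem_st] at ha hga ⊢
    by_contra hg
    apply hne
    apply Gam.eq_one (x := x) (y := g.1 x) (Ne.symm hg) ha
    have h1 : g.1⁻¹ (a.1 (g.1 x)) = x := hga
    rwa [Equiv.Perm.inv_eq_iff_eq] at h1
  conj := by
    rintro _ ⟨hne, x, rfl⟩ g
    refine ⟨?_, g.1.symm x, st_conj x g⟩
    intro h
    apply hne
    rwa [Subgroup.map_eq_bot_iff_of_injective _ (MulAut.conj g⁻¹).injective] at h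
  nontrivial := by
    refine ⟨tr, Set.mem_insert _ _, st 0, Set.mem_insert_of_mem _ ⟨st_zero_ne, 0, rfl⟩, ?_, ?_,
      st_zero_ne⟩
    · intro h
      have h1 : g2 ∈ tr := ⟨2, fun x => g2_apply x⟩
      rw [h, mem_st, g2_apply] at h1
      norm_num at h1
    · intro h
      have h1 : g2 ∈ tr := ⟨2, fun x => g2_apply x⟩
      rw [h, Subgroup.mem_bot] at h1
      exact g2_ne h1

theorem not_iso : IsEmpty (st (1 / 2) ≃* st 0) := by
  constructor
  intro e
  have hm : gm ∈ st (1 / 2) := by rw [mem_st, gm_apply]; norm_num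
  have h1 : (⟨gm, hm⟩ : st (1 / 2)) * ⟨gm, hm⟩ = 1 := by
    apply Subtype.ext
    apply Subtype.ext
    apply Equiv.ext
    intro x
    show gm.1 (gm.1 x) = x
    rw [gm_apply, gm_apply]; ring
  have h2 : (e ⟨gm, hm⟩) * (e ⟨gm, hm⟩) = 1 := by
    rw [← map_mul, h1, map_one]
  have h3 : e ⟨gm, hm⟩ = 1 := by
    generalize e ⟨gm, hm⟩ = y at h2
    obtain ⟨y, hy⟩ := y
    rw [mem_st] at hy
    have h4 : ∀ x, y.1 (y.1 x) = x := by
      intro x
      have := congrArg (fun z : st 0 => z.1.1 x) h2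
      exact this
    obtain ⟨f, k, c, hc, h⟩ := y
    apply Subtype.ext
    apply Subtype.ext
    apply Equiv.ext
    intro x
    show f x = x
    have h5 : ∀ x, f (f x) = x := h4
    have h0 : f 0 = 0 := hy
    rcases h with h | h
    · rw [h] at h0
      have hc0 : c = 0 := by linarith
      have h6 := h5 1
      rw [h, h, hc0] at h6
      have hpos : (0 : ℚ) < 3 ^ k := zpow_pos (by norm_num) k
      have h7 : (3 : ℚ) ^ k = 1 := by nlinarith
      rw [h, h7, hc0]; ring
    · exfalso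
      rw [h] at h0
      apply half_notMem
      have : (1 / 2 : ℚ) = - c := by linarith
      rw [this]
      exact Z3.neg_mem hc
  have h4 : (⟨gm, hm⟩ : st (1 / 2)) = 1 := by
    rw [← map_one e] at h3
    exact e.injective h3
  exact gm_ne (congrArg Subtype.val h4)

theorem not_compl (x : ℚ) : ¬ ∀ g : Gam, ∃ n ∈ tr, ∃ a ∈ st x, g = n * a := by
  intro h
  obtain ⟨n, ⟨b, hb⟩, a, ha, h3⟩ := h g3
  obtain ⟨n', ⟨b', hb'⟩, a', ha', hm⟩ := h gm
  -- `a` is `y ↦ 3 y - b`, `a'` is `y ↦ 1 - y - b'`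
  have e1 : ∀ y, a.1 y = 3 * y - b := by
    intro y
    have : g3.1 y = n.1 (a.1 y) := by rw [h3]; rfl
    rw [hb, g3_apply] at this
    linarith
  have e2 : ∀ y, a'.1 y = 1 - y - b' := by
    intro y
    have : gm.1 y = n'.1 (a'.1 y) := by rw [hm]; rfl
    rw [hb', gm_apply] at this
    linarith
  rw [mem_st, e1] at ha
  rw [mem_st, e2] at ha'
  have hbc : ∀ (n : Gam) (b : ℚ), (∀ x, n.1 x = x + b) → b / 2 ∈ Z3 := by
    rintro ⟨f, k, c, hc, h⟩ b hb
    rcases h with h | h
    · have := hb 0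
      rw [show (⟨f, k, c, hc, Or.inl h⟩ : Gam).1 0 = f 0 from rfl, h] at this
      have : b / 2 = c := by linarith
      rw [this]; exact hc
    · exfalso
      have i0 := hb 0
      have i1 := hb 1
      have hpos : (0 : ℚ) < 3 ^ k := zpow_pos (by norm_num) k
      have j0 : f 0 = 0 + b := i0
      have j1 : f 1 = 1 + b := i1
      rw [h] at j0 j1
      linarith
  have k1 := hbc n b hb
  have k2 := hbc n' b' hb'
  apply half_notMem
  have : (1 / 2 : ℚ) = b / 2 + b' / 2 := by linarith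
  rw [this]
  exact Z3.add_mem k1 k2

/-! ### The free group -/

open Pool.Agent.Helper180.FreeMetric (centralizer_cyclic comm_trans)

/-- A free group generated by `g` and `z` with `g z^i g⁻¹ = z^j`, `i ≠ j`, is commutative. -/
theorem comm_of_rel {K : Type} [Group K] [IsFreeGroup K] {g z : K}
    (hK : Subgroup.closure {g, z} = ⊤) {i j : ℤ} (hij : i ≠ j)
    (h : g * z ^ i * g⁻¹ = z ^ j) (a b : K) : a * b = b * a := by
  classical
  let Y := IsFreeGroup.Generators K
  let e : K ≃* FreeGroup Y := IsFreeGroup.toFreeGroup K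
  by_cases hY : Subsingleton Y
  · have hab : ∀ c d : FreeGroup Y, c * d = d * c := by
      intro c d
      rcases isEmpty_or_nonempty Y with h0 | ⟨⟨y⟩⟩
      · exact Subsingleton.elim _ _
      · obtain ⟨n, rfl⟩ := Pool.Agent.Helper180.FreeMetric.zpow_of_subsingleton hY y c
        obtain ⟨m, rfl⟩ := Pool.Agent.Helper180.FreeMetric.zpow_of_subsingleton hY y d
        rw [← zpow_add, ← zpow_add, add_comm]
    apply e.injective
    rw [map_mul, map_mul, hab]
  · exfalso
    rw [not_subsingleton_iff_nontrivial] at hY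
    obtain ⟨x, y, hxy⟩ := hY
    -- homomorphisms to `ℤ`
    let f : (Y → ℤ) → K →* Multiplicative ℤ := fun t =>
      (FreeGroup.lift (fun c => Multiplicative.ofAdd (t c))).comp e.toMonoidHom
    have hf : ∀ t c, f t (e.symm (FreeGroup.of c)) = Multiplicative.ofAdd (t c) := by
      intro t c
      simp [f]
    have hz : ∀ φ : K →* Multiplicative ℤ, φ z = 1 := by
      intro φ
      have h1 := congrArg φ h
      rw [map_mul, map_mul, map_inv, map_zpow, map_zpow, mul_comm (φ g), mul_assoc,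
        mul_inv_cancel, mul_one] at h1
      have h2 := congrArg Multiplicative.toAdd h1
      rw [toAdd_zpow, toAdd_zpow, smul_eq_mul, smul_eq_mul] at h2
      have h3 : (i - j) * (φ z).toAdd = 0 := by linear_combination h2
      rcases mul_eq_zero.mp h3 with h4 | h4
      · exact absurd (by omega) hij
      · exact h4
    have hone : ∀ φ : K →* Multiplicative ℤ, φ g = 1 → φ = 1 := by
      intro φ hg
      apply MonoidHom.eq_of_eqOn_dense hK
      rintro w (rfl | rfl)
      · exact hg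
      · exact hz φ
    -- a combination vanishing at `g`
    let p := (f (fun c => if c = x then 1 else 0) g).toAdd
    let q := (f (fun c => if c = y then 1 else 0) g).toAdd
    have hlin : ∀ t : Y → ℤ, ∀ t' : Y → ℤ, ∀ m n : ℤ, ∀ k : K,
        (f (fun c => m * t c + n * t' c) k).toAdd = m * (f t k).toAdd + n * (f t' k).toAdd := by
      intro t t' m n k
      have : f (fun c => m * t c + n * t' c) = (f t) ^ m * (f t') ^ n := by
        have h1 : ∀ F G : FreeGroup Y →* Multiplicative ℤ, (∀ c, F (FreeGroup.of c) =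
            G (FreeGroup.of c)) → F.comp e.toMonoidHom = G.comp e.toMonoidHom := by
          intro F G hFG
          rw [FreeGroup.ext_hom F G hFG]
        have h2 : (f t) ^ m * (f t') ^ n = ((FreeGroup.lift (fun c =>
            Multiplicative.ofAdd (t c))) ^ m * (FreeGroup.lift (fun c =>
            Multiplicative.ofAdd (t' c))) ^ n).comp e.toMonoidHom := rfl
        rw [h2]
        apply h1
        intro c
        simp only [FreeGroup.lift_apply_of, MonoidHom.mul_apply, MonoidHom.zpow_apply]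
        rw [← ofAdd_zsmul, ← ofAdd_zsmul, ← ofAdd_add]
        rfl
      rw [this]
      simp only [MonoidHom.mul_apply, MonoidHom.zpow_apply, toAdd_mul, toAdd_zpow, smul_eq_mul]
    have h5 : f (fun c => q * (if c = x then 1 else 0) + (-p) * (if c = y then 1 else 0)) = 1 := by
      apply hone
      apply Multiplicative.toAdd.injective
      rw [hlin]
      show q * p + -p * q = 0
      ring
    have h6 := hf (fun c => q * (if c = x then 1 else 0) + (-p) * (if c = y then 1 else 0)) x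
    have h7 := hf (fun c => q * (if c = x then 1 else 0) + (-p) * (if c = y then 1 else 0)) y
    rw [h5] at h6 h7
    have h8 := congrArg Multiplicative.toAdd h7
    simp [hxy.symm] at h8
    have h9 : f (fun c => if c = x then 1 else 0) = 1 := by
      apply hone
      apply Multiplicative.toAdd.injective
      show p = 0
      simpa using h8
    have h10 := hf (fun c => if c = x then 1 else 0) x
    rw [h9] at h10
    have h11 := congrArg Multiplicative.toAdd h10
    simp at h11

variable {ι : Type}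

/-- Centralisers of nontrivial elements of a free group are malnormal. -/
theorem comm_of_conj {x y g : FreeGroup ι} (hx : x ≠ 1) (hy : y ≠ 1) (h1 : y * x = x * y)
    (h2 : (g * y * g⁻¹) * x = x * (g * y * g⁻¹)) : g * x = x * g := by
  obtain ⟨z, hz, hgen⟩ := centralizer_cyclic x hx
  obtain ⟨i, hi⟩ := hgen y h1
  obtain ⟨j, hj⟩ := hgen _ h2
  have hzy : z * y = y * z := by
    rw [hi, ← zpow_one_add, ← zpow_add_one, add_comm]
  suffices hgz : g * y = y * g from comm_trans hy hgz h1.symm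
  by_cases hij : i = j
  · rw [← hij, ← hi] at hj
    rwa [mul_inv_eq_iff_eq_mul] at hj
  · -- the subgroup generated by `g` and `z`
    let K : Subgroup (FreeGroup ι) := Subgroup.closure {g, z}
    have hg : g ∈ K := Subgroup.subset_closure (by simp)
    have hzK : z ∈ K := Subgroup.subset_closure (by simp)
    have hK : Subgroup.closure {(⟨g, hg⟩ : K), ⟨z, hzK⟩} = ⊤ := by
      have h3 := Subgroup.closure_closure_coe_preimage (k := ({g, z} : Set (FreeGroup ι)))
      rw [← h3]
      congr 1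
      ext w
      obtain ⟨w, hw⟩ := w
      simp only [Set.mem_insert_iff, Set.mem_singleton_iff, Set.mem_preimage, Subtype.mk.injEq]
    have h4 : (⟨g, hg⟩ : K) * (⟨z, hzK⟩ : K) ^ i * (⟨g, hg⟩ : K)⁻¹ = (⟨z, hzK⟩ : K) ^ j := by
      apply Subtype.ext
      simp only [Subgroup.coe_mul, Subgroup.coe_inv, Subgroup.coe_zpow]
      rw [← hi, hj]
    have h5 := comm_of_rel hK hij h4 ⟨g, hg⟩ ⟨z, hzK⟩
    have h6 : g * z = z * g := congrArg Subtype.val h5
    rw [hi]
    exact (show Commute g z from h6).zpow_right i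

/-- The conjugate `g A g⁻¹`. -/
def cj {G : Type u} [Group G] (g : G) (A : Subgroup G) : Subgroup G :=
  A.map (MulAut.conj g).toMonoidHom

theorem mem_cj {G : Type u} [Group G] {A : Subgroup G} {g x : G} :
    x ∈ cj g A ↔ g⁻¹ * x * g ∈ A := by
  have := mem_conj (A := A) (g := g⁻¹) (x := x)
  rw [inv_inv] at this
  exact this

theorem cj_cj {G : Type u} [Group G] {A : Subgroup G} {g h : G} :
    cj g (cj h A) = cj (g * h) A := by
  ext x
  rw [mem_cj, mem_cj, mem_cj]
  have : h⁻¹ * (g⁻¹ * x * g) * h = (g * h)⁻¹ * x * (g * h) := by group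
  rw [this]

/-- The conjugates of `M`, and the centralisers of all the nontrivial elements which do not lie in
any conjugate of `M`. -/
def fam (M : Subgroup (FreeGroup ι)) : Set (Subgroup (FreeGroup ι)) :=
  {A | (∃ g, A = cj g M) ∨
    ∃ x, x ≠ 1 ∧ (∀ g, x ∉ cj g M) ∧ A = Subgroup.centralizer {x}}

theorem mem_cent {x y : FreeGroup ι} : y ∈ Subgroup.centralizer {x} ↔ y * x = x * y :=
  Subgroup.mem_centralizer_singleton_iff

theorem frob_fam (M : Subgroup (FreeGroup ι)) (hbot : M ≠ ⊥) (htop : M ≠ ⊤)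
    (hM : ∀ g : FreeGroup ι, ∀ a ∈ M, g⁻¹ * a * g ∈ M → a ≠ 1 → g ∈ M) :
    IsFrobeniusPartition ⊥ (fam M) where
  partition := by
    intro x hx
    by_cases hex : ∃ g, x ∈ cj g M
    · obtain ⟨g, hg⟩ := hex
      refine ⟨cj g M, ⟨Set.mem_insert_of_mem _ (Or.inl ⟨g, rfl⟩), hg⟩, ?_⟩
      rintro H ⟨hH, hxH⟩
      rw [mem_cj] at hg
      have ha1 : g⁻¹ * x * g ≠ 1 := by
        intro h
        apply hx
        have : x = g * (g⁻¹ * x * g) * g⁻¹ := by group
        rw [this, h]; group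
      rcases hH with rfl | ⟨h, rfl⟩ | ⟨y, hy, hyM, rfl⟩
      · exact absurd hxH hx
      · rw [mem_cj] at hxH
        have h1 : g⁻¹ * h ∈ M := by
          apply hM (g⁻¹ * h) _ hg _ ha1
          have : (g⁻¹ * h)⁻¹ * (g⁻¹ * x * g) * (g⁻¹ * h) = h⁻¹ * x * h := by group
          rw [this]; exact hxH
        ext w
        rw [mem_cj, mem_cj]
        have e : g⁻¹ * w * g = (g⁻¹ * h) * (h⁻¹ * w * h) * (g⁻¹ * h)⁻¹ := by group
        rw [e, Subgroup.mul_mem_cancel_right _ (M.inv_mem h1), Subgroup.mul_mem_cancel_left _ h1]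
      · exfalso
        rw [mem_cent] at hxH
        apply hyM g
        rw [mem_cj]
        apply hM (g⁻¹ * y * g) _ hg _ ha1
        have : (g⁻¹ * y * g)⁻¹ * (g⁻¹ * x * g) * (g⁻¹ * y * g) = g⁻¹ * (y⁻¹ * (x * y)) * g := by
          group
        rw [this, hxH, inv_mul_cancel_left]
        exact hg
    · push Not at hex
      refine ⟨Subgroup.centralizer {x},
        ⟨Set.mem_insert_of_mem _ (Or.inr ⟨x, hx, hex, rfl⟩), mem_cent.mpr rfl⟩, ?_⟩
      rintro H ⟨hH, hxH⟩
      rcases hH with rfl | ⟨h, rfl⟩ | ⟨y, hy, hyM, rfl⟩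
      · exact absurd hxH hx
      · exact absurd hxH (hex h)
      · rw [mem_cent] at hxH
        ext w
        rw [mem_cent, mem_cent]
        exact ⟨fun h => comm_trans hy h hxH, fun h => comm_trans hx h hxH.symm⟩
  normal := inferInstance
  malnormal := by
    rintro _ (⟨h, rfl⟩ | ⟨x, hx, _, rfl⟩)
    · apply malnormal_of
      intro g a ha hga hne
      rw [mem_cj] at ha hga ⊢
      apply hM (h⁻¹ * g * h) (h⁻¹ * a * h) ha
      · have : (h⁻¹ * g * h)⁻¹ * (h⁻¹ * a * h) * (h⁻¹ * g * h) = h⁻¹ * (g⁻¹ * a * g) * h := by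
          group
        rw [this]; exact hga
      · intro h1
        apply hne
        have : a = h * (h⁻¹ * a * h) * h⁻¹ := by group
        rw [this, h1]; group
    · apply malnormal_of
      intro g a ha hga hne
      rw [mem_cent] at ha hga ⊢
      have h1 : g⁻¹ * x = x * g⁻¹ := by
        apply comm_of_conj hx hne ha
        rw [inv_inv]; exact hga
      have := (show Commute g⁻¹ x from h1).inv_left
      rw [inv_inv] at this
      exact this
  conj := by
    intro A hA g
    show cj g⁻¹ A ∈ fam M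
    rcases hA with ⟨h, rfl⟩ | ⟨x, hx, hxM, rfl⟩
    · exact Or.inl ⟨g⁻¹ * h, cj_cj⟩
    · refine Or.inr ⟨g⁻¹ * x * g, ?_, ?_, ?_⟩
      · intro h1
        apply hx
        have : x = g * (g⁻¹ * x * g) * g⁻¹ := by group
        rw [this, h1]; group
      · intro h h1
        apply hxM (g * h)
        rw [mem_cj] at h1 ⊢
        have : (g * h)⁻¹ * x * (g * h) = h⁻¹ * (g⁻¹ * x * g) * h := by group
        rw [this]; exact h1
      · ext w
        rw [mem_cj, mem_cent, mem_cent, inv_inv]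
        constructor
        · intro h
          have e1 : w * (g⁻¹ * x * g) = g⁻¹ * ((g * w * g⁻¹) * x) * g := by group
          have e2 : (g⁻¹ * x * g) * w = g⁻¹ * (x * (g * w * g⁻¹)) * g := by group
          rw [e1, e2, h]
        · intro h
          have e1 : (g * w * g⁻¹) * x = g * (w * (g⁻¹ * x * g)) * g⁻¹ := by group
          have e2 : x * (g * w * g⁻¹) = g * ((g⁻¹ * x * g) * w) * g⁻¹ := by group
          rw [e1, e2, h]
  nontrivial := by
    obtain ⟨g, hg⟩ : ∃ g, g ∉ M := by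
      by_contra h
      push Not at h
      exact htop (eq_top_iff.mpr fun g _ => h g)
    obtain ⟨⟨a, ha⟩, ha1'⟩ := Subgroup.ne_bot_iff_exists_ne_one.mp hbot
    have ha1 : a ≠ 1 := fun h1 => ha1' (Subtype.ext h1)
    have h1 : cj 1 M = M := by
      ext w; rw [mem_cj]; simp
    have h2 : a ∉ cj g M := by
      intro h
      rw [mem_cj] at h
      exact hg (hM g a ha h ha1)
    refine ⟨M, Set.mem_insert_of_mem _ (Or.inl ⟨1, h1.symm⟩), cj g M,
      Set.mem_insert_of_mem _ (Or.inl ⟨g, rfl⟩), ?_, hbot, ?_⟩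
    · intro h
      rw [← h] at h2
      exact h2 ha
    · intro h
      apply hbot
      unfold cj at h
      rwa [Subgroup.map_eq_bot_iff_of_injective _ (MulAut.conj g).injective] at h

theorem fam_ne_bot {M : Subgroup (FreeGroup ι)} (hbot : M ≠ ⊥) : ∀ A ∈ fam M, A ≠ ⊥ := by
  rintro _ (⟨g, rfl⟩ | ⟨x, hx, _, rfl⟩) h
  · apply hbot
    unfold cj at h
    rwa [Subgroup.map_eq_bot_iff_of_injective _ (MulAut.conj g).injective] at h
  · have h1 : x ∈ Subgroup.centralizer {x} := mem_cent.mpr rfl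
    rw [h, Subgroup.mem_bot] at h1
    exact hx h1

/-- The free group on three generators. -/
abbrev F3 : Type := FreeGroup (Fin 3)

/-- The retraction of `F3` which fixes the first two generators and kills the third one. -/
def ret : F3 →* F3 := FreeGroup.lift ![FreeGroup.of 0, FreeGroup.of 1, 1]

theorem ret_of0 : ret (FreeGroup.of 0) = FreeGroup.of 0 := by simp [ret]
theorem ret_of1 : ret (FreeGroup.of 1) = FreeGroup.of 1 := by simp [ret]
theorem ret_of2 : ret (FreeGroup.of 2) = 1 := by simp [ret]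

theorem ret_ret (w : F3) : ret (ret w) = ret w := by
  have : ret.comp ret = ret := by
    apply FreeGroup.ext_hom
    intro i
    fin_cases i
    · show ret (ret (FreeGroup.of 0)) = ret (FreeGroup.of 0)
      rw [ret_of0, ret_of0]
    · show ret (ret (FreeGroup.of 1)) = ret (FreeGroup.of 1)
      rw [ret_of1, ret_of1]
    · show ret (ret (FreeGroup.of 2)) = ret (FreeGroup.of 2)
      rw [ret_of2, map_one]
  exact DFunLike.congr_fun this w

theorem of_ne {i j : Fin 3} (h : i ≠ j) :
    (FreeGroup.of i : F3) * FreeGroup.of j ≠ FreeGroup.of j * FreeGroup.of i := by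
  intro h1
  have h2 := congrArg FreeGroup.toWord h1
  simp only [FreeGroup.toWord_mul, FreeGroup.toWord_of] at h2
  have h3 : FreeGroup.reduce ([(i, true)] ++ [(j, true)]) = [(i, true), (j, true)] := by
    simp [FreeGroup.reduce]
  have h4 : FreeGroup.reduce ([(j, true)] ++ [(i, true)]) = [(j, true), (i, true)] := by
    simp [FreeGroup.reduce]
  rw [h3, h4] at h2
  simp at h2
  exact h h2.1

theorem cent_ne_bot : Subgroup.centralizer {(FreeGroup.of 0 : F3)} ≠ ⊥ := by
  intro h
  have : (FreeGroup.of 0 : F3) ∈ Subgroup.centralizer {(FreeGroup.of 0 : F3)} :=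
    mem_cent.mpr rfl
  rw [h] at this
  exact FreeGroup.of_ne_one 0 this

theorem range_ne_bot : ret.range ≠ ⊥ := by
  intro h
  have : (FreeGroup.of 0 : F3) ∈ ret.range := ⟨_, ret_of0⟩
  rw [h] at this
  exact FreeGroup.of_ne_one 0 this

theorem frob1 : IsFrobeniusPartition ⊥ (fam (Subgroup.centralizer {(FreeGroup.of 0 : F3)})) := by
  have h0 : (FreeGroup.of 0 : F3) ≠ 1 := FreeGroup.of_ne_one 0
  apply frob_fam
  · intro h
    have : (FreeGroup.of 0 : F3) ∈ Subgroup.centralizer {(FreeGroup.of 0 : F3)} :=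
      mem_cent.mpr rfl
    rw [h] at this
    exact h0 this
  · intro h
    have : (FreeGroup.of 1 : F3) ∈ Subgroup.centralizer {(FreeGroup.of 0 : F3)} := by
      rw [h]; trivial
    rw [mem_cent] at this
    exact of_ne (by decide) this
  · intro g a ha hga hne
    rw [mem_cent] at ha hga ⊢
    have h1 : g⁻¹ * FreeGroup.of 0 = FreeGroup.of 0 * g⁻¹ := by
      apply comm_of_conj h0 hne ha
      rw [inv_inv]; exact hga
    have := (show Commute g⁻¹ (FreeGroup.of 0) from h1).inv_left
    rw [inv_inv] at this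
    exact this

theorem frob2 : IsFrobeniusPartition ⊥ (fam ret.range) := by
  apply frob_fam
  · intro h
    have : (FreeGroup.of 0 : F3) ∈ ret.range := ⟨_, ret_of0⟩
    rw [h] at this
    exact FreeGroup.of_ne_one 0 this
  · intro h
    have : (FreeGroup.of 2 : F3) ∈ ret.range := by rw [h]; trivial
    obtain ⟨w, hw⟩ := this
    have h2 := ret_ret w
    rw [hw, ret_of2] at h2
    exact FreeGroup.of_ne_one 2 h2.symm
  · rintro g a ⟨v, hv⟩ ⟨w, hw⟩ hne
    have ha : ret a = a := by rw [← hv, ret_ret]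
    have hga : ret (g⁻¹ * a * g) = g⁻¹ * a * g := by rw [← hw, ret_ret]
    rw [map_mul, map_mul, map_inv, ha] at hga
    -- `h = g (ret g)⁻¹` commutes with `a`
    have hcomm : (g * (ret g)⁻¹) * a = a * (g * (ret g)⁻¹) := by
      have e1 : (g * (ret g)⁻¹) * a = g * ((ret g)⁻¹ * a * ret g) * (ret g)⁻¹ := by group
      rw [e1, hga]; group
    obtain ⟨z, hz, hgen⟩ := centralizer_cyclic a hne
    obtain ⟨i, hi⟩ := hgen a rfl
    obtain ⟨k, hk⟩ := hgen _ hcomm
    have h1 : ret (g * (ret g)⁻¹) = 1 := by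
      rw [map_mul, map_inv, ret_ret, mul_inv_cancel]
    rw [hk, map_zpow, IsMulTorsionFree.zpow_eq_one_iff] at h1
    rcases h1 with h1 | h1
    · exfalso
      apply hne
      rw [← ha, hi, map_zpow, h1, one_zpow]
    · rw [h1, zpow_zero, mul_inv_eq_one] at hk
      exact ⟨g, hk.symm⟩

theorem fam_ne : fam (Subgroup.centralizer {(FreeGroup.of 0 : F3)}) ≠ fam ret.range := by
  intro h
  have h1 : (ret.range : Subgroup F3) ∈ fam ret.range := by
    refine Or.inl ⟨1, ?_⟩
    ext w; rw [mem_cj]; simp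
  rw [← h] at h1
  have h0 : (FreeGroup.of 0 : F3) ∈ ret.range := ⟨_, ret_of0⟩
  have h2 : (FreeGroup.of 1 : F3) ∈ ret.range := ⟨_, ret_of1⟩
  rcases h1 with ⟨g, hg⟩ | ⟨x, hx, _, hxr⟩
  · rw [hg, mem_cj, mem_cent] at h0 h2
    have h3 := comm_trans (FreeGroup.of_ne_one (0 : Fin 3)) h0 h2
    apply of_ne (i := 0) (j := 1) (by decide)
    have e1 : (FreeGroup.of 0 : F3) * FreeGroup.of 1 =
        g * ((g⁻¹ * FreeGroup.of 0 * g) * (g⁻¹ * FreeGroup.of 1 * g)) * g⁻¹ := by group
    have e2 : (FreeGroup.of 1 : F3) * FreeGroup.of 0 =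
        g * ((g⁻¹ * FreeGroup.of 1 * g) * (g⁻¹ * FreeGroup.of 0 * g)) * g⁻¹ := by group
    rw [e1, e2, h3]
  · rw [hxr, mem_cent] at h0 h2
    exact of_ne (by decide) (comm_trans hx h0 h2)

theorem infinite_Gam : Infinite Gam := by
  have h : ∀ n : ℕ, (g3 ^ n).1 1 = 3 ^ n := by
    intro n
    induction n with
    | zero => rfl
    | succ n ih =>
      rw [pow_succ']
      show g3.1 ((g3 ^ n).1 1) = _
      rw [ih, g3_apply, pow_succ']
  apply Infinite.of_injective (fun n : ℕ => g3 ^ n)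
  intro m n hmn
  have h1 : (3 : ℚ) ^ m = 3 ^ n := by
    rw [← h, ← h]
    exact congrArg (fun g : Gam => g.1 1) hmn
  exact pow_right_injective₀ (by norm_num) (by norm_num) h1

/-- **None of the three properties holds for all infinite groups with a nontrivial Frobenius
partition.** The first part refutes (i), with two nontrivial Frobenius partitions of one group
(none of them having the trivial subgroup in `𝒜`). The second part refutes (ii) and (iii), with
one group. -/
theorem result :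
    (∃ (G : Type) (_ : Group G) (N N' : Subgroup G) (𝒜 𝒜' : Set (Subgroup G)), Infinite G ∧
      IsFrobeniusPartition N 𝒜 ∧ IsFrobeniusPartition N' 𝒜' ∧
      (∀ A ∈ 𝒜, A ≠ ⊥) ∧ (∀ A ∈ 𝒜', A ≠ ⊥) ∧ ¬ (N' = N ∧ 𝒜' = 𝒜)) ∧
    (∃ (G : Type) (_ : Group G) (N : Subgroup G) (𝒜 : Set (Subgroup G)), Infinite G ∧
      IsFrobeniusPartition N 𝒜 ∧ (∀ A ∈ 𝒜, A ≠ ⊥) ∧
      (∃ A ∈ 𝒜, ∃ B ∈ 𝒜, IsEmpty (A ≃* B)) ∧
      ∀ A ∈ 𝒜, ¬ ((∀ g : G, ∃ n ∈ N, ∃ a ∈ A, g = n * a) ∧ N ⊓ A = ⊥)) := by
  refine ⟨⟨F3, inferInstance, ⊥, ⊥, _, _, inferInstance, frob1, frob2,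
    fam_ne_bot cent_ne_bot, fam_ne_bot range_ne_bot, fun h => fam_ne h.2.symm⟩, ⟨Gam, inferInstance, tr, stabs, infinite_Gam, frob_Gam,
    fun A hA => hA.1, ⟨st (1 / 2), ⟨st_half_ne, _, rfl⟩, st 0, ⟨st_zero_ne, _, rfl⟩, not_iso⟩,
    ?_⟩⟩
  rintro _ ⟨_, x, rfl⟩ ⟨h, _⟩
  exact not_compl x h

end Pool.Agent.Results.MP_c23b5e_al.NoneHolds
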